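import Pool.Agent.V11249.PolishUnique

/-!
# For every `n ≥ 1` there is a semigroup with exactly `n` Polish semigroup topologies

Let `S` consist of the permutations of `ℕ` and of constants `c_x` for the points `x` of the set
`ℕ ∪ {∞_1, …, ∞_k}`; permutations fix the points `∞_j`, multiplication is composition of
permutations, `g c_x = c_{g(x)}` and `c_x s = c_x`. Let `τ` be a Polish semigroup topology on `S`.

* The set `C` of the constants is the set of all `s` with `s g = s` for a fixed permutation `g`
  different from the identity, so it is closed. By the Baire category theorem some `c_n` is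
  isolated in `C`, and it follows that the sets `{s : s c_y = c_m}` and all the points `c_m` are open.
* So the topology of the group of permutations is finer than the topology of pointwise convergence.
  As it is Polish with continuous multiplication, it has the same Borel sets, and a category
  argument shows that the two topologies are equal.
* The points `∞_j` are not limits of permutations: if `g` is close to `∞_j`, then so is each
  permutation that agrees with `g` on a given finite set `K`, for which we may assume that `g[K]` is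
  disjoint from `K`. So there is an involution close to `∞_j`, but then the identity is also close
  to `∞_j`.
* If `∞_j` has a neighbourhood which misses infinitely many of the `c_n`, then applying a permutation
  to this neighbourhood one sees that `∞_j` is isolated. So at most one of the points `∞_j` is not
  isolated, and it is then the limit of the sequence of the `c_n`.

This leaves exactly `k + 1` topologies, and each of them is a Polish semigroup topology.
-/

set_option autoImplicit false
open Set Filter Topology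

namespace Pool.Agent.Results.MP_67072b_lc.FiniteNumber

/-- The group of permutations of the natural numbers. -/
abbrev G : Type := Equiv.Perm ℕ

/-- The underlying set of the semigroup: permutations of `ℕ`, and constants for the points of `ℕ`
and of a set of `k` further points. -/
abbrev S (k : ℕ) : Type := G ⊕ (ℕ ⊕ Fin k)

variable {k : ℕ}

/-- Permutations act on the points; they fix the `k` further points. -/
def act (g : G) : ℕ ⊕ Fin k → ℕ ⊕ Fin k
  | Sum.inl n => Sum.inl (g n)
  | Sum.inr j => Sum.inr j

/-- Multiplication: composition of permutations, `g c_x = c_{g(x)}` and `c_x s = c_x`. -/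
def mulS : S k → S k → S k
  | Sum.inl g, Sum.inl h => Sum.inl (g * h)
  | Sum.inl g, Sum.inr x => Sum.inr (act g x)
  | Sum.inr x, _ => Sum.inr x

instance instSemigroupS (k : ℕ) : Semigroup (S k) where
  mul := mulS
  mul_assoc := by
    rintro (a | a) (b | b) (c | c)
    · exact congrArg Sum.inl (mul_assoc a b c)
    · rcases c with c | c <;> rfl
    all_goals rfl

/-- a permutation and its inverse -/
def emb (g : G) : (ℕ → ℕ) × (ℕ → ℕ) := ((g : ℕ → ℕ), (g.symm : ℕ → ℕ))

/-- the topology of pointwise convergence on `G` -/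
@[reducible] def pw : TopologicalSpace G :=
  TopologicalSpace.induced emb inferInstance

section pw

attribute [local instance] pw

lemma cont_emb : Continuous emb := continuous_induced_dom

lemma cont_apply (n : ℕ) : Continuous fun g : G => g n :=
  (continuous_apply n).comp (continuous_fst.comp cont_emb)

lemma cont_symm_apply (n : ℕ) : Continuous fun g : G => g.symm n :=
  (continuous_apply n).comp (continuous_snd.comp cont_emb)

lemma continuous_G {X : Type*} [TopologicalSpace X] {f : X → G} (h1 : ∀ n, Continuous fun x => f x n)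
    (h2 : ∀ n, Continuous fun x => (f x).symm n) : Continuous f :=
  continuous_induced_rng.2 ((continuous_pi h1).prodMk (continuous_pi h2))

lemma cont_eval : Continuous fun p : G × ℕ => p.1 p.2 :=
  continuous_prod_of_discrete_right.2 fun n => cont_apply n

lemma cont_eval_symm : Continuous fun p : G × ℕ => p.1.symm p.2 :=
  continuous_prod_of_discrete_right.2 fun n => cont_symm_apply n

lemma isTopologicalGroup_pw : IsTopologicalGroup G where
  continuous_mul := continuous_G
    (fun n => cont_eval.comp (continuous_fst.prodMk ((cont_apply n).comp continuous_snd)))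
    (fun n => cont_eval_symm.comp (continuous_snd.prodMk ((cont_symm_apply n).comp continuous_fst)))
  continuous_inv := continuous_G (fun n => cont_symm_apply n) (fun n => cont_apply n)

lemma polish_pw : PolishSpace G := by
  have hind : IsInducing emb := ⟨rfl⟩
  have hinj : Function.Injective emb := by
    intro g h hgh
    exact Equiv.coe_fn_injective (congrArg Prod.fst hgh)
  have hrange : range emb =
      ⋂ n : ℕ, {p : (ℕ → ℕ) × (ℕ → ℕ) | p.1 (p.2 n) = n} ∩ {p | p.2 (p.1 n) = n} := by
    ext p
    simp only [mem_range, mem_iInter]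
    constructor
    · rintro ⟨g, rfl⟩ n
      exact ⟨g.apply_symm_apply n, g.symm_apply_apply n⟩
    · intro h
      refine ⟨⟨p.1, p.2, fun n => (h n).2, fun n => (h n).1⟩, rfl⟩
  have hev : Continuous fun q : (ℕ → ℕ) × ℕ => q.1 q.2 :=
    continuous_prod_of_discrete_right.2 fun n => continuous_apply n
  have hclosed : IsClosed (range emb) := by
    rw [hrange]
    refine isClosed_iInter fun n => (isClosed_eq ?_ continuous_const).inter
      (isClosed_eq ?_ continuous_const)
    · exact hev.comp (continuous_fst.prodMk ((continuous_apply n).comp continuous_snd))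
    · exact hev.comp (continuous_snd.prodMk ((continuous_apply n).comp continuous_fst))
  exact IsClosedEmbedding.polishSpace ⟨⟨hind, hinj⟩, hclosed⟩

end pw


lemma polish_pi_bool (ι : Type) [Countable ι] : PolishSpace (ι → Bool) := by
  have : PolishSpace Bool := inferInstance
  have : SecondCountableTopology (ι → Bool) := inferInstance
  have : TopologicalSpace.IsCompletelyMetrizableSpace (ι → Bool) := inferInstance
  constructor

lemma cap {ι : Type} (x : ι) : Continuous fun v : ι → Bool => v x := continuous_apply x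

lemma open_cap {ι : Type} (x : ι) (b : Bool) : IsOpen {v : ι → Bool | v x = b} :=
  (isOpen_discrete ({b} : Set Bool)).preimage (cap x)

/-- coordinates for the topology in which the `i`-th further point is the limit of `ℕ` -/
def coord (i : Fin k) (x y : ℕ ⊕ Fin k) : Bool := decide (x = y ∧ y ≠ Sum.inr i)

/-- the topologies on the set of points: discrete, or the `i`-th further point is the limit
of the sequence of the natural numbers -/
@[reducible] def XT : Option (Fin k) → TopologicalSpace (ℕ ⊕ Fin k)
  | none => ⊥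
  | some i => TopologicalSpace.induced (coord i) inferInstance

lemma isOpen_single (i : Option (Fin k)) (x : ℕ ⊕ Fin k) (hx : ∀ j, i = some j → x ≠ Sum.inr j) :
    IsOpen[XT i] {x} := by
  cases i with
  | none =>
    show IsOpen[⊥] {x}
    trivial
  | some i =>
    refine isOpen_induced_iff.2 ⟨{v | v x = true}, ?_, ?_⟩
    · exact open_cap x true
    · ext y
      have := hx i rfl
      simp [coord, this]

lemma isOpen_XT (i : Option (Fin k)) (U : Set (ℕ ⊕ Fin k)) : IsOpen[XT i] U ↔
    ∀ j, i = some j → Sum.inr j ∈ U → {n : ℕ | Sum.inl n ∉ U}.Finite := by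
  let := XT i
  constructor
  · rintro hU j rfl hj
    obtain ⟨V, hV, rfl⟩ := isOpen_induced_iff.1 hU
    have hj' : coord j (Sum.inr j) ∈ V := hj
    obtain ⟨I, u, hu, hsub⟩ := isOpen_pi_iff.1 hV _ hj'
    refine ((I.finite_toSet).preimage Sum.inl_injective.injOn).subset ?_
    intro n hn
    by_contra hnI
    apply hn
    show coord j (Sum.inl n) ∈ V
    apply hsub
    intro y hy
    have h1 := (hu y hy).2
    have h2 : coord j (Sum.inl n) y = coord j (Sum.inr j) y := by
      have h3 : (Sum.inl n : ℕ ⊕ Fin k) ≠ y := fun h => hnI (by rw [mem_preimage, h]; exact hy)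
      simp only [coord]
      rw [decide_eq_decide]
      constructor
      · rintro ⟨h4, -⟩
        exact absurd h4 h3
      · rintro ⟨h4, h5⟩
        exact absurd h4.symm h5
    rw [h2]
    exact h1
  · intro h
    have hdec : U = (⋃ x ∈ {x | x ∈ U ∧ ∀ j, i = some j → x ≠ Sum.inr j}, {x}) ∪
        {x | x ∈ U ∧ ∃ j, i = some j ∧ Sum.inr j ∈ U} := by
      ext x
      simp only [mem_union, mem_iUnion, mem_ofPred_eq, mem_singleton_iff, exists_prop]
      constructor
      · intro hx
        by_cases h1 : ∀ j, i = some j → x ≠ Sum.inr j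
        · exact Or.inl ⟨x, ⟨hx, h1⟩, rfl⟩
        · push Not at h1
          obtain ⟨j, hj, hxj⟩ := h1
          exact Or.inr ⟨hx, j, hj, hxj ▸ hx⟩
      · rintro (⟨y, ⟨h1, -⟩, rfl⟩ | ⟨h1, -⟩) <;> exact h1
    rw [hdec]
    refine IsOpen.union (isOpen_biUnion fun x hx => isOpen_single i x hx.2) ?_
    by_cases h1 : ∃ j, i = some j ∧ Sum.inr j ∈ U
    · obtain ⟨j, rfl, hj⟩ := h1
      have h2 : {x | x ∈ U ∧ ∃ j', some j = some j' ∧ Sum.inr j' ∈ U} = U := by
        ext x
        exact ⟨fun h => h.1, fun h => ⟨h, j, rfl, hj⟩⟩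
      rw [h2]
      have hfin : (Uᶜ : Set (ℕ ⊕ Fin k)).Finite := by
        have h3 : (Uᶜ : Set (ℕ ⊕ Fin k)) ⊆ Sum.inl '' {n : ℕ | Sum.inl n ∉ U} ∪
            range (Sum.inr : Fin k → ℕ ⊕ Fin k) := by
          rintro (n | l) hx
          · exact Or.inl ⟨n, hx, rfl⟩
          · exact Or.inr ⟨l, rfl⟩
        exact (((h j rfl hj).image _).union (finite_range _)).subset h3
      have h3 : U = ⋂ y ∈ (Uᶜ : Set (ℕ ⊕ Fin k)), {x | coord j x y = false} := by
        ext x
        simp only [mem_iInter, mem_ofPred_eq]
        constructor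
        · intro hx y hy
          simp only [coord, decide_eq_false_iff_not]
          rintro ⟨rfl, -⟩
          exact hy hx
        · intro h4
          by_contra hx
          have h5 := h4 x hx
          simp only [coord, decide_eq_false_iff_not, true_and, not_not] at h5
          exact hx (h5 ▸ hj)
      rw [h3]
      refine hfin.isOpen_biInter fun y _ => ?_
      exact isOpen_induced_iff.2 ⟨{v | v y = false}, open_cap y false, rfl⟩
    · have h2 : {x | x ∈ U ∧ ∃ j, i = some j ∧ Sum.inr j ∈ U} = ∅ := by
        ext x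
        simp only [mem_ofPred_eq, mem_empty_iff_false, iff_false]
        exact fun h => h1 h.2
      rw [h2]
      exact isOpen_empty

lemma polish_XT (i : Option (Fin k)) : @PolishSpace _ (XT i) := by
  cases i with
  | none =>
    let : TopologicalSpace (ℕ ⊕ Fin k) := ⊥
    have : DiscreteTopology (ℕ ⊕ Fin k) := ⟨rfl⟩
    show PolishSpace (ℕ ⊕ Fin k)
    infer_instance
  | some i =>
    let : TopologicalSpace (ℕ ⊕ Fin k) := XT (some i)
    show PolishSpace (ℕ ⊕ Fin k)
    have hind : IsInducing (coord i) := ⟨rfl⟩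
    have hinj : Function.Injective (coord i) := by
      intro x x' h
      by_contra hne
      by_cases hx : x = Sum.inr i
      · have h1 := congrFun h x'
        simp only [coord] at h1
        rw [decide_eq_decide] at h1
        have h2 := h1.2 ⟨trivial, fun h' => hne (hx.trans h'.symm)⟩
        exact hne h2.1
      · have h1 := congrFun h x
        simp only [coord] at h1
        rw [decide_eq_decide] at h1
        have h2 := h1.1 ⟨trivial, hx⟩
        exact hne h2.1.symm
    have hrange : range (coord i) = {v | v (Sum.inr i) = false} ∩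
        ⋂ y, ⋂ y', {v : (ℕ ⊕ Fin k) → Bool | y ≠ y' → (v y && v y') = false} := by
      ext v
      simp only [mem_range, mem_inter_iff, mem_iInter, mem_ofPred_eq]
      constructor
      · rintro ⟨x, rfl⟩
        refine ⟨by simp [coord], fun y y' hyy => ?_⟩
        simp only [coord, Bool.and_eq_false_iff, decide_eq_false_iff_not]
        by_cases h : x = y
        · right
          rintro ⟨rfl, -⟩
          exact hyy h.symm
        · left
          rintro ⟨h', -⟩
          exact h h'
      · rintro ⟨h1, h2⟩
        by_cases h3 : ∃ y, v y = true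
        · obtain ⟨y, hy⟩ := h3
          refine ⟨y, ?_⟩
          funext y'
          by_cases h4 : y = y'
          · subst h4
            rw [hy]
            have h5 : y ≠ Sum.inr i := by
              rintro rfl
              rw [hy] at h1
              exact absurd h1 (by simp)
            simp [coord, h5]
          · have h5 := h2 y y' h4
            rw [hy, Bool.true_and] at h5
            rw [h5]
            simp [coord, h4]
        · refine ⟨Sum.inr i, ?_⟩
          funext y
          push Not at h3
          have h4 : v y = false := by simpa using h3 y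
          rw [h4]
          simp only [coord, decide_eq_false_iff_not]
          rintro ⟨rfl, h5⟩
          exact h5 rfl
    have hclosed : IsClosed (range (coord i)) := by
      rw [hrange]
      refine IsClosed.inter (isClosed_eq (continuous_apply _) continuous_const) ?_
      refine isClosed_iInter fun y => isClosed_iInter fun y' => ?_
      by_cases h : y = y'
      · have : {v : (ℕ ⊕ Fin k) → Bool | y ≠ y' → (v y && v y') = false} = univ := by
          ext v
          simp [h]
        rw [this]
        exact isClosed_univ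
      · have : {v : (ℕ ⊕ Fin k) → Bool | y ≠ y' → (v y && v y') = false} =
            {v | (v y && v y') = false} := by
          ext v
          simp [h]
        rw [this]
        refine isClosed_eq ?_ continuous_const
        exact (continuous_of_discreteTopology (f := fun q : Bool × Bool => q.1 && q.2)).comp
          ((cap y).prodMk (cap y'))
    have := polish_pi_bool (ℕ ⊕ Fin k)
    exact IsClosedEmbedding.polishSpace ⟨⟨hind, hinj⟩, hclosed⟩

/-- the topologies on `S` -/
@[reducible] def ST (i : Option (Fin k)) : TopologicalSpace (S k) :=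
  @instTopologicalSpaceSum G (ℕ ⊕ Fin k) pw (XT i)

lemma polish_ST (i : Option (Fin k)) : @PolishSpace _ (ST i) := by
  let := pw
  let := XT i
  have := polish_pw
  have := polish_XT i
  infer_instance

lemma cont_act (i : Option (Fin k)) : @Continuous (G × (ℕ ⊕ Fin k)) (ℕ ⊕ Fin k)
    (@instTopologicalSpaceProd _ _ pw (XT i)) (XT i) (fun p => act p.1 p.2) := by
  let := pw
  cases i with
  | none =>
    let : TopologicalSpace (ℕ ⊕ Fin k) := ⊥
    have : DiscreteTopology (ℕ ⊕ Fin k) := ⟨rfl⟩
    show Continuous fun p : G × (ℕ ⊕ Fin k) => act p.1 p.2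
    refine continuous_prod_of_discrete_right.2 fun x => ?_
    cases x with
    | inl n =>
      have h1 : Continuous (Sum.inl : ℕ → ℕ ⊕ Fin k) := continuous_of_discreteTopology
      exact h1.comp (cont_apply n)
    | inr j => exact continuous_const
  | some i =>
    let : TopologicalSpace (ℕ ⊕ Fin k) := XT (some i)
    show Continuous fun p : G × (ℕ ⊕ Fin k) => act p.1 p.2
    have hc : Continuous (coord i) := continuous_induced_dom
    refine continuous_induced_rng.2 (continuous_pi fun y => ?_)
    cases y with
    | inl m =>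
      have h1 : (fun p : G × (ℕ ⊕ Fin k) => (coord i ∘ fun p => act p.1 p.2) p (Sum.inl m)) =
          (fun q : ℕ × (ℕ ⊕ Fin k) => coord i q.2 (Sum.inl q.1)) ∘
            (fun p : G × (ℕ ⊕ Fin k) => (p.1.symm m, p.2)) := by
        funext ⟨g, x⟩
        simp only [Function.comp, coord]
        rw [decide_eq_decide]
        cases x with
        | inl n =>
          simp only [act, Sum.inl.injEq, ne_eq, reduceCtorEq, not_false_eq_true, and_true]
          constructor
          · rintro rfl
            simp
          · rintro rfl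
            simp
        | inr j => simp [act]
      rw [h1]
      refine Continuous.comp (continuous_prod_of_discrete_left.2 fun n => ?_)
        (((cont_symm_apply m).comp continuous_fst).prodMk continuous_snd)
      exact (cap (Sum.inl n)).comp hc
    | inr j =>
      have h1 : (fun p : G × (ℕ ⊕ Fin k) => (coord i ∘ fun p => act p.1 p.2) p (Sum.inr j)) =
          fun p : G × (ℕ ⊕ Fin k) => coord i p.2 (Sum.inr j) := by
        funext ⟨g, x⟩
        simp only [Function.comp, coord]
        rw [decide_eq_decide]
        cases x with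
        | inl n => simp [act]
        | inr j => simp [act]
      rw [h1]
      exact (cap (Sum.inr j)).comp (hc.comp continuous_snd)

lemma contMul_ST (i : Option (Fin k)) : @ContinuousMul (S k) (ST i) _ := by
  let := pw
  let := XT i
  have := isTopologicalGroup_pw
  show ContinuousMul (S k)
  refine ⟨continuous_iff_continuousAt.2 ?_⟩
  rintro ⟨g | x, t⟩
  · cases t with
    | inl h =>
      show Tendsto _ (𝓝 (Sum.inl g, Sum.inl h)) _
      rw [nhds_prod_eq, nhds_inl, nhds_inl, Filter.prod_map_map_eq, tendsto_map'_iff, ← nhds_prod_eq]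
      have h1 : Continuous fun p : G × G => (Sum.inl (p.1 * p.2) : S k) :=
        continuous_inl.comp continuous_mul
      exact h1.tendsto (g, h)
    | inr x =>
      show Tendsto _ (𝓝 (Sum.inl g, Sum.inr x)) _
      rw [nhds_prod_eq, nhds_inl, nhds_inr, Filter.prod_map_map_eq, tendsto_map'_iff, ← nhds_prod_eq]
      have h1 : Continuous fun p : G × (ℕ ⊕ Fin k) => (Sum.inr (act p.1 p.2) : S k) :=
        continuous_inr.comp (cont_act i)
      exact h1.tendsto (g, x)
  · show Tendsto _ (𝓝 (Sum.inr x, t)) _
    rw [nhds_prod_eq, nhds_inr, ← Filter.map_id (f := 𝓝 t), Filter.prod_map_map_eq,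
      tendsto_map'_iff, ← nhds_prod_eq]
    have h1 : Continuous fun p : (ℕ ⊕ Fin k) × S k => (Sum.inr p.1 : S k) :=
      continuous_inr.comp continuous_fst
    exact h1.tendsto (x, t)

lemma ST_injective : Function.Injective (ST : Option (Fin k) → TopologicalSpace (S k)) := by
  intro i i' h
  have h1 : ∀ (i : Option (Fin k)) (j : Fin k),
      IsOpen[ST i] {(Sum.inr (Sum.inr j) : S k)} ↔ i ≠ some j := by
    intro i j
    let := pw
    let := XT i
    have h2 : IsOpen[ST i] {(Sum.inr (Sum.inr j) : S k)} ↔
        IsOpen[pw] (Sum.inl ⁻¹' {(Sum.inr (Sum.inr j) : S k)}) ∧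
        IsOpen[XT i] (Sum.inr ⁻¹' {(Sum.inr (Sum.inr j) : S k)}) := isOpen_sum_iff
    have h3 : (Sum.inl ⁻¹' {(Sum.inr (Sum.inr j) : S k)} : Set G) = ∅ := by
      ext g
      simp
    rw [h2, h3, isOpen_XT]
    constructor
    · rintro ⟨-, h4⟩ rfl
      have h5 := h4 j rfl rfl
      have h6 : {n : ℕ | (Sum.inl n : ℕ ⊕ Fin k) ∉
          (Sum.inr ⁻¹' {(Sum.inr (Sum.inr j) : S k)} : Set (ℕ ⊕ Fin k))} = univ := by
        ext n
        simp
      rw [h6] at h5
      exact infinite_univ h5
    · intro h4
      refine ⟨isOpen_empty, fun j' hj' hj'' => ?_⟩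
      exfalso
      apply h4
      rw [hj']
      have h5 : (Sum.inr (Sum.inr j') : S k) = Sum.inr (Sum.inr j) := hj''
      simpa using h5
  have h2 : ∀ j, i ≠ some j ↔ i' ≠ some j := by
    intro j
    rw [← h1, ← h1, h]
  cases i with
  | none =>
    cases i' with
    | none => rfl
    | some j => exact absurd rfl ((h2 j).1 (by simp))
  | some j =>
    by_contra hne
    exact (h2 j).2 (fun h => hne h.symm) rfl

/-- an involution with given values -/
lemma exists_inv (E : Set ℕ) (f : ℕ → ℕ) (hf : InjOn f E) (hd : ∀ x ∈ E, f x ∉ E) :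
    ∃ h : G, h * h = 1 ∧ ∀ x ∈ E, h x = f x := by
  classical
  let F : ℕ → ℕ := fun z => if z ∈ E then f z else if hz : ∃ x ∈ E, f x = z then hz.choose else z
  have hF1 : ∀ z ∈ E, F z = f z := fun z hz => if_pos hz
  have hF2 : ∀ x ∈ E, F (f x) = x := by
    intro x hx
    have h1 : f x ∉ E := hd x hx
    have h2 : ∃ y ∈ E, f y = f x := ⟨x, hx, rfl⟩
    simp only [F, if_neg h1, dif_pos h2]
    exact hf h2.choose_spec.1 hx h2.choose_spec.2
  have hF3 : ∀ z, z ∉ E → (¬ ∃ x ∈ E, f x = z) → F z = z := by
    intro z h1 h2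
    simp only [F, if_neg h1, dif_neg h2]
  have hinv : Function.Involutive F := by
    intro z
    by_cases h1 : z ∈ E
    · rw [hF1 z h1, hF2 z h1]
    · by_cases h2 : ∃ x ∈ E, f x = z
      · obtain ⟨x, hx, rfl⟩ := h2
        rw [hF2 x hx, hF1 x hx]
      · rw [hF3 z h1 h2, hF3 z h1 h2]
  refine ⟨hinv.toPerm F, ?_, hF1⟩
  ext z
  exact hinv z

lemma pw_nhds_one (V : Set G) (hV : IsOpen[pw] V) (h1 : (1 : G) ∈ V) :
    ∃ K : Finset ℕ, ∀ g : G, (∀ x ∈ K, g x = x) → g ∈ V := by
  classical
  obtain ⟨V', hV', rfl⟩ := isOpen_induced_iff.1 hV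
  have h2 : emb 1 ∈ V' := h1
  obtain ⟨u, v, hu, hv, h3, h4, huv⟩ := isOpen_prod_iff.1 hV' _ _ h2
  obtain ⟨I, a, ha, hI⟩ := isOpen_pi_iff.1 hu _ h3
  obtain ⟨J, b, hb, hJ⟩ := isOpen_pi_iff.1 hv _ h4
  refine ⟨I ∪ J, fun g hg => ?_⟩
  show emb g ∈ V'
  apply huv
  constructor
  · apply hI
    intro x hx
    have h5 := (ha x hx).2
    have h6 : g x = x := hg x (Finset.mem_union_left _ hx)
    show g x ∈ a x
    rw [h6]
    exact h5
  · apply hJ
    intro x hx
    have h5 := (hb x hx).2
    have h6 : g x = x := hg x (Finset.mem_union_right _ hx)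
    show g.symm x ∈ b x
    have h7 : g.symm x = x := by
      rw [Equiv.symm_apply_eq]
      exact h6.symm
    rw [h7]
    exact h5

lemma act_eq_inl (g : G) (x : ℕ ⊕ Fin k) (n : ℕ) : act g x = Sum.inl n ↔ x = Sum.inl (g.symm n) := by
  cases x with
  | inl m =>
    simp only [act, Sum.inl.injEq]
    constructor
    · rintro rfl
      simp
    · rintro rfl
      simp
  | inr j => simp [act]

lemma mul_inr (s : S k) (x : ℕ ⊕ Fin k) : ∃ y, s * Sum.inr x = Sum.inr y := by
  cases s with
  | inl g => exact ⟨act g x, rfl⟩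
  | inr y => exact ⟨y, rfl⟩

section uniq

variable [τ : TopologicalSpace (S k)] [PolishSpace (S k)] [ContinuousMul (S k)]

lemma closed_C : IsClosed (range (Sum.inr : ℕ ⊕ Fin k → S k)) := by
  have h1 : range (Sum.inr : ℕ ⊕ Fin k → S k) = {s | s * Sum.inl (Equiv.swap 0 1 : G) = s} := by
    ext s
    cases s with
    | inl g =>
      simp only [mem_range, reduceCtorEq, exists_false, mem_ofPred_eq, false_iff]
      intro h
      have h2 : (Sum.inl (g * Equiv.swap 0 1) : S k) = Sum.inl g := h
      have h3 : g * Equiv.swap 0 1 = g := Sum.inl_injective h2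
      have h4 : (Equiv.swap 0 1 : G) = 1 := by
        rw [← inv_mul_cancel_left g (Equiv.swap 0 1), h3, inv_mul_cancel]
      have h5 := congrArg (fun g : G => g 0) h4
      simp at h5
    | inr x =>
      simp only [mem_range, mem_ofPred_eq]
      exact ⟨fun _ => rfl, fun _ => ⟨x, rfl⟩⟩
  rw [h1]
  exact isClosed_eq (continuous_id.mul continuous_const) continuous_id

lemma open_G : IsOpen (range (Sum.inl : G → S k)) := by
  have h1 : range (Sum.inl : G → S k) = (range (Sum.inr : ℕ ⊕ Fin k → S k))ᶜ := by
    rw [compl_range_inr]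
  rw [h1]
  exact closed_C.isOpen_compl

lemma exists_isolated : ∃ (n : ℕ) (U : Set (S k)), IsOpen U ∧ Sum.inr (Sum.inl n) ∈ U ∧
    ∀ x, (Sum.inr x : S k) ∈ U → x = Sum.inl n := by
  by_contra hcon
  push Not at hcon
  let C : Set (S k) := range (Sum.inr : ℕ ⊕ Fin k → S k)
  have hP : PolishSpace C := closed_C.polishSpace
  let c : ℕ ⊕ Fin k → C := fun x => ⟨Sum.inr x, x, rfl⟩
  have hnot : ∀ n, ¬ IsOpen {c (Sum.inl n)} := by
    intro n hn
    obtain ⟨U, hU, hU'⟩ := isOpen_induced_iff.1 hn
    obtain ⟨x, hx, hxn⟩ := hcon n U hU (by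
      have : c (Sum.inl n) ∈ Subtype.val ⁻¹' U := by
        rw [hU']
        rfl
      exact this)
    apply hxn
    have h2 : c x ∈ Subtype.val ⁻¹' U := hx
    rw [hU'] at h2
    have h3 : c x = c (Sum.inl n) := h2
    have h4 := congrArg Subtype.val h3
    exact Sum.inr_injective h4
  have hdense : Dense (⋂ n : ℕ, ({c (Sum.inl n)}ᶜ : Set C)) := by
    refine dense_iInter_of_isOpen_nat (fun n => isOpen_compl_singleton) fun n => ?_
    exact dense_compl_singleton_iff_not_open.2 (hnot n)
  have hsub : (⋂ n : ℕ, ({c (Sum.inl n)}ᶜ : Set C)) ⊆ range (fun j : Fin k => c (Sum.inr j)) := by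
    rintro ⟨_, x, rfl⟩ hx
    cases x with
    | inl n => exact absurd rfl (mem_iInter.1 hx n)
    | inr j => exact ⟨j, rfl⟩
  have hcl : IsClosed (range (fun j : Fin k => c (Sum.inr j))) := (finite_range _).isClosed
  have huniv : range (fun j : Fin k => c (Sum.inr j)) = univ := by
    rw [← hcl.closure_eq]
    exact (hdense.mono hsub).closure_eq
  have h0 : c (Sum.inl 0) ∈ range (fun j : Fin k => c (Sum.inr j)) := by
    rw [huniv]
    exact mem_univ _
  obtain ⟨j, hj⟩ := h0
  have h4 := congrArg Subtype.val hj
  have h5 : (Sum.inr j : ℕ ⊕ Fin k) = Sum.inl 0 := Sum.inr_injective h4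
  simp at h5

lemma open_N (y m : ℕ) : IsOpen {s : S k | s * Sum.inr (Sum.inl y) = Sum.inr (Sum.inl m)} := by
  obtain ⟨n, U, hU, hn, hU'⟩ := exists_isolated (k := k)
  have h1 : {s : S k | s * Sum.inr (Sum.inl y) = Sum.inr (Sum.inl m)} =
      {s : S k | (Sum.inl (Equiv.swap m n : G) * s) * Sum.inr (Sum.inl y) ∈ U} := by
    ext s
    simp only [mem_ofPred_eq]
    obtain ⟨z, hz⟩ := mul_inr s (Sum.inl y)
    rw [mul_assoc, hz]
    constructor
    · intro h
      have h2 : z = Sum.inl m := Sum.inr_injective h
      rw [h2]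
      have h3 : (Sum.inl (Equiv.swap m n : G) * Sum.inr (Sum.inl m) : S k) =
          Sum.inr (Sum.inl (Equiv.swap m n m)) := rfl
      rw [h3, Equiv.swap_apply_left]
      exact hn
    · intro h
      have h3 : (Sum.inl (Equiv.swap m n : G) * Sum.inr z : S k) =
          Sum.inr (act (Equiv.swap m n : G) z) := rfl
      rw [h3] at h
      have h4 := (act_eq_inl _ _ _).1 (hU' _ h)
      rw [h4, Equiv.symm_swap, Equiv.swap_apply_right]
  rw [h1]
  exact hU.preimage ((continuous_const.mul continuous_id).mul continuous_const)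

lemma open_point (m : ℕ) : IsOpen {(Sum.inr (Sum.inl m) : S k)} := by
  have h1 : {(Sum.inr (Sum.inl m) : S k)} =
      {s : S k | s * Sum.inr (Sum.inl 0) = Sum.inr (Sum.inl m)} ∩
      {s : S k | s * Sum.inr (Sum.inl 1) = Sum.inr (Sum.inl m)} := by
    ext s
    cases s with
    | inl g =>
      simp only [mem_singleton_iff, reduceCtorEq, mem_inter_iff, mem_ofPred_eq, false_iff]
      rintro ⟨h2, h3⟩
      have h4 : (Sum.inr (Sum.inl (g 0)) : S k) = Sum.inr (Sum.inl m) := h2
      have h5 : (Sum.inr (Sum.inl (g 1)) : S k) = Sum.inr (Sum.inl m) := h3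
      simp only [Sum.inr.injEq, Sum.inl.injEq] at h4 h5
      have h6 : (0 : ℕ) = 1 := g.injective (h4.trans h5.symm)
      exact absurd h6 (by norm_num)
    | inr x => exact ⟨fun h => ⟨h, h⟩, fun h => h.1⟩
  rw [h1]
  exact (open_N 0 m).inter (open_N 1 m)

lemma induced_eq_pw : TopologicalSpace.induced (Sum.inl : G → S k) τ = pw := by
  refine V11249.PolishUnique.eq_of_le pw isTopologicalGroup_pw polish_pw _ ?_ ?_ ?_
  · let := TopologicalSpace.induced (Sum.inl : G → S k) τ
    show PolishSpace G
    have h1 : IsEmbedding (Sum.inl : G → S k) := ⟨⟨rfl⟩, Sum.inl_injective⟩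
    have h2 : PolishSpace (range (Sum.inl : G → S k)) := open_G.polishSpace
    exact h1.toHomeomorph.isClosedEmbedding.polishSpace
  · let := TopologicalSpace.induced (Sum.inl : G → S k) τ
    have hc : Continuous (Sum.inl : G → S k) := continuous_induced_dom
    refine continuous_iff_le_induced.1 ?_
    have h1 : ∀ n m : ℕ, IsOpen {g : G | g n = m} := by
      intro n m
      have h2 : {g : G | g n = m} = Sum.inl ⁻¹' {s : S k | s * Sum.inr (Sum.inl n) =
          Sum.inr (Sum.inl m)} := by
        ext g
        simp only [mem_ofPred_eq, mem_preimage]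
        have h3 : (Sum.inl g * Sum.inr (Sum.inl n) : S k) = Sum.inr (Sum.inl (g n)) := rfl
        rw [h3]
        simp
      rw [h2]
      exact (open_N n m).preimage hc
    refine Continuous.prodMk (continuous_pi fun n => ?_) (continuous_pi fun n => ?_)
    · refine continuous_discrete_rng.2 fun m => ?_
      exact h1 n m
    · refine continuous_discrete_rng.2 fun m => ?_
      have h2 : (fun g : G => g.symm n) ⁻¹' {m} = {g : G | g m = n} := by
        ext g
        simp only [mem_preimage, mem_singleton_iff, mem_ofPred_eq]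
        rw [Equiv.symm_apply_eq]
        exact eq_comm
      rw [h2]
      exact h1 m n
  · let := TopologicalSpace.induced (Sum.inl : G → S k) τ
    have hc : Continuous (Sum.inl : G → S k) := continuous_induced_dom
    show Continuous fun p : G × G => p.1 * p.2
    refine continuous_induced_rng.2 ?_
    have h1 : Continuous fun p : G × G => (Sum.inl p.1 * Sum.inl p.2 : S k) :=
      (hc.comp continuous_fst).mul (hc.comp continuous_snd)
    exact h1

/-- The further points are not limits of permutations. -/
lemma not_mem_closure (j : Fin k) : (Sum.inr (Sum.inr j) : S k) ∉ closure (range (Sum.inl : G → S k)) := by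
  intro hcl
  set p : S k := Sum.inr (Sum.inr j) with hp
  have hmul1 : Continuous fun q : S k × S k => q.1 * q.2 := continuous_mul
  -- the first neighbourhood
  have hA : IsOpen ((fun q : S k × S k => q.1 * q.2) ⁻¹' {(Sum.inl 1 : S k)}ᶜ) :=
    isOpen_compl_singleton.preimage hmul1
  obtain ⟨B1, B2, hB1, hB2, hp1, hp2, hB12⟩ := isOpen_prod_iff.1 hA p p (by
    show p * p ≠ Sum.inl 1
    rw [hp]
    exact fun h => by cases h)
  have hB : IsOpen ((fun q : S k × S k => q.1 * q.2) ⁻¹' (B1 ∩ B2)) :=
    (hB1.inter hB2).preimage hmul1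
  obtain ⟨B', W, hB', hW, hp', h1W, hBW⟩ := isOpen_prod_iff.1 hB p (Sum.inl 1) ⟨hp1, hp2⟩
  -- the stabilizer
  have hWG : IsOpen[pw] (Sum.inl ⁻¹' W : Set G) := by
    rw [← induced_eq_pw (k := k)]
    exact isOpen_induced_iff.2 ⟨W, hW, rfl⟩
  obtain ⟨K, hK⟩ := pw_nhds_one _ hWG h1W
  have hB'' : IsOpen (B' ∩ ⋂ x ∈ K, ⋂ y ∈ K,
      {s : S k | s * Sum.inr (Sum.inl x) = Sum.inr (Sum.inl y)}ᶜ) := by
    refine hB'.inter (isOpen_biInter_finset fun x _ => isOpen_biInter_finset fun y _ => ?_)
    exact (isClosed_eq (continuous_id.mul continuous_const) continuous_const).isOpen_compl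
  obtain ⟨_, ⟨hgB', hg⟩, g, rfl⟩ := mem_closure_iff.1 hcl _ hB'' ⟨hp', by
    simp only [mem_iInter]
    intro x _ y _ h
    have h2 : (Sum.inr (Sum.inr j) : S k) = Sum.inr (Sum.inl y) := h
    simp at h2⟩
  have hgK : ∀ x ∈ (K : Set ℕ), g x ∉ (K : Set ℕ) := by
    intro x hx hgx
    simp only [mem_iInter] at hg
    exact hg x hx (g x) hgx rfl
  obtain ⟨h, hh, hhg⟩ := exists_inv (K : Set ℕ) g g.injective.injOn hgK
  have hw : Sum.inl (g⁻¹ * h) ∈ W := by
    refine hK (g⁻¹ * h) fun x hx => ?_
    show g.symm (h x) = x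
    rw [hhg x hx]
    exact g.symm_apply_apply x
  have h3 : (Sum.inl g * Sum.inl (g⁻¹ * h) : S k) ∈ B1 ∩ B2 :=
    hBW (show (Sum.inl g, Sum.inl (g⁻¹ * h)) ∈ B' ×ˢ W from ⟨hgB', hw⟩)
  have h4 : (Sum.inl g * Sum.inl (g⁻¹ * h) : S k) = Sum.inl h := by
    show (Sum.inl (g * (g⁻¹ * h)) : S k) = Sum.inl h
    rw [mul_inv_cancel_left]
  rw [h4] at h3
  have h5 : ((Sum.inl h : S k), (Sum.inl h : S k)) ∈
      (fun q : S k × S k => q.1 * q.2) ⁻¹' {(Sum.inl 1 : S k)}ᶜ := hB12 ⟨h3.1, h3.2⟩
  apply h5
  show (Sum.inl (h * h) : S k) = Sum.inl 1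
  rw [hh]

lemma closed_G : IsClosed (range (Sum.inl : G → S k)) := by
  refine isClosed_of_closure_subset fun s hs => ?_
  rcases s with g | n | j
  · exact ⟨g, rfl⟩
  · obtain ⟨_, h1, g, rfl⟩ := mem_closure_iff.1 hs _ (open_point n) rfl
    cases h1
  · exact absurd hs (not_mem_closure j)

/-- A further point is isolated or has cofinite neighbourhoods. -/
lemma isolated_or (j : Fin k) (U : Set (S k)) (hU : IsOpen U) (hj : Sum.inr (Sum.inr j) ∈ U)
    (hinf : {n : ℕ | (Sum.inr (Sum.inl n) : S k) ∉ U}.Infinite) :
    IsOpen {(Sum.inr (Sum.inr j) : S k)} := by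
  classical
  let F : Set (S k) := (fun j' : Fin k => (Sum.inr (Sum.inr j') : S k)) '' {j' | j' ≠ j}
  have hF : IsClosed F := ((toFinite _).image _).isClosed
  let U1 : Set (S k) := U ∩ (range (Sum.inl : G → S k))ᶜ ∩ Fᶜ
  have hU1 : IsOpen U1 := (hU.inter closed_G.isOpen_compl).inter hF.isOpen_compl
  have hjU1 : (Sum.inr (Sum.inr j) : S k) ∈ U1 := by
    refine ⟨⟨hj, ?_⟩, ?_⟩
    · rintro ⟨g, hg⟩
      cases hg
    · rintro ⟨j', hj', h⟩
      simp only [Sum.inr.injEq] at h
      exact hj' h
  let f := hinf.natEmbedding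
  obtain ⟨h, hh, hhf⟩ := exists_inv {n : ℕ | (Sum.inr (Sum.inl n) : S k) ∈ U} (fun n => (f n).1)
    (fun a _ b _ hab => f.injective (Subtype.ext hab)) (fun n _ => (f n).2)
  have h1 : {(Sum.inr (Sum.inr j) : S k)} = U1 ∩ {s | Sum.inl h * s ∈ U1} := by
    ext s
    simp only [mem_singleton_iff, mem_inter_iff, mem_ofPred_eq]
    constructor
    · rintro rfl
      exact ⟨hjU1, hjU1⟩
    · rintro ⟨h2, h3⟩
      rcases s with g | n | j'
      · exact absurd ⟨g, rfl⟩ h2.1.2
      · exfalso
        have h4 : (Sum.inr (Sum.inl (h n)) : S k) ∈ U := h3.1.1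
        rw [hhf n h2.1.1] at h4
        exact (f n).2 h4
      · by_cases hjj : j' = j
        · rw [hjj]
        · exact absurd ⟨j', hjj, rfl⟩ h2.2
  rw [h1]
  exact hU1.inter (hU1.preimage (continuous_const.mul continuous_id))

/-- Every Polish semigroup topology is one of the topologies `ST i`. -/
lemma eq_ST : ∃ i, τ = ST i := by
  classical
  have hcof : ∀ j : Fin k, ¬ IsOpen {(Sum.inr (Sum.inr j) : S k)} → ∀ U : Set (S k), IsOpen U →
      Sum.inr (Sum.inr j) ∈ U → {n : ℕ | (Sum.inr (Sum.inl n) : S k) ∉ U}.Finite := by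
    intro j hj U hU hjU
    by_contra hinf
    exact hj (isolated_or j U hU hjU hinf)
  have huniq : ∀ j j' : Fin k, ¬ IsOpen {(Sum.inr (Sum.inr j) : S k)} →
      ¬ IsOpen {(Sum.inr (Sum.inr j') : S k)} → j = j' := by
    intro j j' hj hj'
    by_contra hne
    have h1 : (Sum.inr (Sum.inr j) : S k) ≠ Sum.inr (Sum.inr j') := by
      simpa using hne
    obtain ⟨U, V, hU, hV, hjU, hjV, hUV⟩ := t2_separation h1
    have h2 := (hcof j hj U hU hjU).union (hcof j' hj' V hV hjV)
    have h3 : {n : ℕ | (Sum.inr (Sum.inl n) : S k) ∉ U} ∪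
        {n : ℕ | (Sum.inr (Sum.inl n) : S k) ∉ V} = univ := by
      ext n
      simp only [mem_union, mem_ofPred_eq, mem_univ, iff_true]
      by_contra h4
      push Not at h4
      exact Set.disjoint_left.1 hUV h4.1 h4.2
    rw [h3] at h2
    exact infinite_univ h2
  obtain ⟨i, hi⟩ : ∃ i : Option (Fin k), ∀ j, i = some j ↔
      ¬ IsOpen {(Sum.inr (Sum.inr j) : S k)} := by
    by_cases h : ∃ j : Fin k, ¬ IsOpen {(Sum.inr (Sum.inr j) : S k)}
    · obtain ⟨j, hj⟩ := h
      refine ⟨some j, fun j' => ⟨fun h => ?_, fun h => ?_⟩⟩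
      · simp only [Option.some.injEq] at h
        rwa [← h]
      · rw [huniq j j' hj h]
    · push Not at h
      refine ⟨none, fun j => ⟨fun h' => ?_, fun h' => absurd (h j) h'⟩⟩
      cases h'
  refine ⟨i, ?_⟩
  refine TopologicalSpace.ext (funext fun U => propext ?_)
  have hsum : IsOpen[ST i] U ↔ IsOpen[pw] (Sum.inl ⁻¹' U) ∧ IsOpen[XT i] (Sum.inr ⁻¹' U) :=
    @isOpen_sum_iff G (ℕ ⊕ Fin k) pw (XT i) U
  show IsOpen U ↔ IsOpen[ST i] U
  rw [hsum, isOpen_XT]
  constructor
  · intro hU
    refine ⟨?_, fun j hj hjU => hcof j ((hi j).1 hj) U hU hjU⟩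
    rw [← induced_eq_pw (k := k)]
    exact isOpen_induced_iff.2 ⟨U, hU, rfl⟩
  · rintro ⟨h1, h2⟩
    rw [isOpen_iff_mem_nhds]
    intro s hs
    rcases s with g | n | j
    · rw [← induced_eq_pw (k := k)] at h1
      obtain ⟨O, hO, hOU⟩ := isOpen_induced_iff.1 h1
      have h3 : Sum.inl g ∈ O ∩ range (Sum.inl : G → S k) := by
        refine ⟨?_, g, rfl⟩
        have : g ∈ Sum.inl ⁻¹' O := by
          rw [hOU]
          exact hs
        exact this
      refine mem_of_superset ((hO.inter open_G).mem_nhds h3) ?_
      rintro _ ⟨h4, g', rfl⟩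
      have : g' ∈ Sum.inl ⁻¹' U := by
        rw [← hOU]
        exact h4
      exact this
    · refine mem_of_superset ((open_point n).mem_nhds rfl) ?_
      rintro _ rfl
      exact hs
    · by_cases hj : IsOpen {(Sum.inr (Sum.inr j) : S k)}
      · refine mem_of_superset (hj.mem_nhds rfl) ?_
        rintro _ rfl
        exact hs
      · have h3 := h2 j ((hi j).2 hj) hs
        have hfin : {x : ℕ ⊕ Fin k | (Sum.inr x : S k) ∉ U}.Finite := by
          have h4 : {x : ℕ ⊕ Fin k | (Sum.inr x : S k) ∉ U} ⊆
              Sum.inl '' {n : ℕ | (Sum.inl n : ℕ ⊕ Fin k) ∉ (Sum.inr ⁻¹' U : Set (ℕ ⊕ Fin k))} ∪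
              range (Sum.inr : Fin k → ℕ ⊕ Fin k) := by
            rintro (n | l) hx
            · exact Or.inl ⟨n, hx, rfl⟩
            · exact Or.inr ⟨l, rfl⟩
          exact ((h3.image _).union (finite_range _)).subset h4
        have hcl : IsClosed ((Sum.inr : ℕ ⊕ Fin k → S k) '' {x : ℕ ⊕ Fin k | (Sum.inr x : S k) ∉ U}) :=
          (hfin.image _).isClosed
        refine mem_of_superset ((closed_G.isOpen_compl.inter hcl.isOpen_compl).mem_nhds ⟨?_, ?_⟩) ?_
        · rintro ⟨g, hg⟩
          cases hg
        · rintro ⟨x, hx, h5⟩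
          have h6 : x = Sum.inr j := Sum.inr_injective h5
          rw [h6] at hx
          exact hx hs
        · rintro s' ⟨h5, h6⟩
          rcases s' with g | x
          · exact absurd ⟨g, rfl⟩ h5
          · by_contra h7
            exact h6 ⟨x, h7, rfl⟩

end uniq

open Cardinal in
/-- For every natural number `n ≥ 1` there is a semigroup with exactly `n` Polish semigroup
topologies. -/
theorem result (n : ℕ) (hn : 1 ≤ n) : ∃ (S : Type) (_ : Semigroup S),
    #{τ : TopologicalSpace S // @PolishSpace S τ ∧ @ContinuousMul S τ _} = n := by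
  obtain ⟨k, rfl⟩ : ∃ k, n = k + 1 := ⟨n - 1, by omega⟩
  refine ⟨S k, instSemigroupS k, ?_⟩
  have hbij : Function.Bijective (fun i : Option (Fin k) =>
      (⟨ST i, polish_ST i, contMul_ST i⟩ :
        {τ : TopologicalSpace (S k) // @PolishSpace (S k) τ ∧ @ContinuousMul (S k) τ _})) := by
    constructor
    · intro i i' h
      exact ST_injective (congrArg Subtype.val h)
    · rintro ⟨τ, h1, h2⟩
      obtain ⟨i, hi⟩ := @eq_ST k τ h1 h2
      exact ⟨i, Subtype.ext hi.symm⟩
  rw [← mk_congr (Equiv.ofBijective _ hbij)]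
  simp

end Pool.Agent.Results.MP_67072b_lc.FiniteNumber
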